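import Pool.Agent.Helper70.GB.Types

open Set MeasureTheory Filter Topology

namespace GB

theorem QIndep.linearIndependent {a₁ a₂ : ℝ} (hα : QIndep a₁ a₂) :
    LinearIndependent ℚ ![(1 : ℝ), a₁, a₂] := by
  rw [← LinearIndependent.iff_fractionRing ℤ ℚ, Fintype.linearIndependent_iff]
  intro g hg
  simp only [Fin.sum_univ_three, Matrix.cons_val_zero, Matrix.cons_val_one, Matrix.cons_val,
    zsmul_eq_mul, mul_one] at hg
  have h := hα (g 1, g 2) (-g 0) (by simp only [Lf]; push_cast; linarith)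
  simp only [Prod.mk_eq_zero] at h
  rw [h.1, h.2] at hg
  have h0 : g 0 = 0 := by
    have : (g 0 : ℝ) = 0 := by simpa using hg
    exact_mod_cast this
  intro i
  fin_cases i
  · exact h0
  · exact h.1
  · exact h.2

theorem QIndep.exists_functional {a₁ a₂ : ℝ} (hα : QIndep a₁ a₂) (c : Fin 3 → ℚ) :
    ∃ p : ℝ →ₗ[ℚ] ℚ, p 1 = c 0 ∧ p a₁ = c 1 ∧ p a₂ = c 2 := by
  have hli := hα.linearIndependent
  obtain ⟨p, hp⟩ := LinearMap.exists_extend ((Module.Basis.span hli).constr ℚ c)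
  have key : ∀ i, p (![(1 : ℝ), a₁, a₂] i) = c i := by
    intro i
    have h1 := congrArg (fun f => f (Module.Basis.span hli i)) hp
    simp only [LinearMap.comp_apply, Submodule.subtype_apply, Module.Basis.constr_basis] at h1
    rw [Module.Basis.span_apply] at h1
    exact h1
  exact ⟨p, key 0, key 1, key 2⟩

/-- Class extents. -/
theorem class_extent (a₁ a₂ : ℝ) (hα : QIndep a₁ a₂) (m : ℕ) (b : Fin m → ℝ) :
    ∃ C : ℕ, ∀ (n : Fin m → ℤ) (k : ℤ) (v : ℤ × ℤ) (u : ℤ) (R : ℕ),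
      (∀ j, |n j| ≤ R) → |k| ≤ R → ∑ j, (n j : ℝ) * b j + k * a₁ = Lf a₁ a₂ v + u →
      |v.1| ≤ C * R ∧ |v.2| ≤ C * R := by
  have gen : ∀ (c1 c2 : ℚ), |c1| ≤ 1 → ∃ C : ℕ, ∀ (n : Fin m → ℤ) (k : ℤ) (v : ℤ × ℤ) (u : ℤ)
      (R : ℕ), (∀ j, |n j| ≤ R) → |k| ≤ R → ∑ j, (n j : ℝ) * b j + k * a₁ = Lf a₁ a₂ v + u →
      |(v.1 : ℚ) * c1 + v.2 * c2| ≤ C * R := by
    intro c1 c2 hc1
    obtain ⟨p, p0, p1, p2⟩ := hα.exists_functional ![0, c1, c2]
    simp only [Matrix.cons_val_zero, Matrix.cons_val_one, Matrix.cons_val] at p0 p1 p2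
    obtain ⟨C, hC⟩ := exists_nat_ge (∑ j, |p (b j)| + 1)
    refine ⟨C, fun n k v u R hn hk h => ?_⟩
    have hR : (0 : ℚ) ≤ R := Nat.cast_nonneg R
    have e1 : ∀ (z : ℤ) (x : ℝ), p ((z : ℝ) * x) = z * p x := by
      intro z x
      rw [← zsmul_eq_mul, map_zsmul, zsmul_eq_mul]
    have h1 := congrArg p h
    rw [map_add, map_sum, e1, map_add, Lf, map_add, e1, e1, p1, p2] at h1
    simp only [e1] at h1
    have e2 : p (u : ℝ) = 0 := by
      have := e1 u 1
      rw [mul_one, p0, mul_zero] at this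
      exact this
    rw [e2, add_zero] at h1
    rw [← h1]
    have b1 : |∑ j, (n j : ℚ) * p (b j)| ≤ ∑ j, |p (b j)| * R := by
      refine (Finset.abs_sum_le_sum_abs _ _).trans (Finset.sum_le_sum fun j _ => ?_)
      rw [abs_mul, mul_comm]
      have : |(n j : ℚ)| ≤ R := by exact_mod_cast hn j
      exact mul_le_mul_of_nonneg_left this (abs_nonneg _)
    have b2 : |(k : ℚ) * c1| ≤ R := by
      rw [abs_mul]
      have : |(k : ℚ)| ≤ R := by exact_mod_cast hk
      calc |(k : ℚ)| * |c1| ≤ R * 1 := mul_le_mul this hc1 (abs_nonneg _) hR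
        _ = R := mul_one _
    calc |∑ j, (n j : ℚ) * p (b j) + k * c1| ≤ |∑ j, (n j : ℚ) * p (b j)| + |(k : ℚ) * c1| :=
          abs_add_le _ _
      _ ≤ ∑ j, |p (b j)| * R + R := add_le_add b1 b2
      _ = (∑ j, |p (b j)| + 1) * R := by rw [← Finset.sum_mul]; ring
      _ ≤ C * R := mul_le_mul_of_nonneg_right hC hR
  obtain ⟨C1, h1⟩ := gen 1 0 (by norm_num)
  obtain ⟨C2, h2⟩ := gen 0 1 (by norm_num)
  refine ⟨C1 + C2, fun n k v u R hn hk h => ?_⟩
  have e1 := h1 n k v u R hn hk h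
  have e2 := h2 n k v u R hn hk h
  rw [mul_one, mul_zero, add_zero] at e1
  rw [mul_one, mul_zero, zero_add] at e2
  have hR : (0 : ℤ) ≤ R := Int.natCast_nonneg R
  have f1 : |v.1| ≤ C1 * R := by exact_mod_cast e1
  have f2 : |v.2| ≤ C2 * R := by exact_mod_cast e2
  have g1 : (0 : ℤ) ≤ C1 * R := by positivity
  have g2 : (0 : ℤ) ≤ C2 * R := by positivity
  constructor
  · push_cast; nlinarith
  · push_cast; nlinarith

/-- Lower levels: coboundaries of sets of small density. -/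
theorem cfgSum_cob_le (α : ℝ) (m : ℕ) (b : Fin m → ℝ) (P R : ℕ) (G : Set ℝ) (c : ℝ)
    (hG : ∀ x : ℝ, (∑ l ∈ Finset.range (2 * R + 1), G.indicator (fun _ => (1 : ℝ)) (x + l * α))
      ≤ c * (2 * R + 1)) (x : ℝ) :
    |cfgSum α b P R (fun y => (cob α G y : ℝ)) x| ≤ 2 * (2 * R + 1) ^ (m + 1) * c := by
  set χ : ℝ → ℝ := G.indicator (fun _ => (1 : ℝ)) with hχ
  have χ0 : ∀ y, 0 ≤ χ y := fun y => Set.indicator_nonneg (fun _ _ => zero_le_one) y
  have hcob : ∀ y, (cob α G y : ℝ) = χ y - χ (y + α) := by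
    intro y
    have e : ∀ z, ((G.indicator (fun _ => (1 : ℤ)) z : ℤ) : ℝ) = χ z := by
      intro z
      by_cases hz : z ∈ G
      · rw [hχ, Set.indicator_of_mem hz, Set.indicator_of_mem hz]; simp
      · rw [hχ, Set.indicator_of_notMem hz, Set.indicator_of_notMem hz]; simp
    rw [cob, Int.cast_sub, e, e]
  have tel1 : ∀ (y : ℝ) (P : ℕ), ∑ l ∈ Finset.range P, (χ (y + l * α) - χ (y + l * α + α)) =
      χ y - χ (y + P * α) := by
    intro y P
    induction P with
    | zero => simp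
    | succ P ih =>
      rw [Finset.sum_range_succ, ih]
      push_cast
      rw [show y + ((P : ℝ) + 1) * α = y + P * α + α by ring]
      ring
  have tel2 : ∀ (y : ℝ) (P : ℕ), ∑ l ∈ Finset.range P, (χ (y - l * α) - χ (y - l * α + α)) =
      χ (y + α - P * α) - χ (y + α) := by
    intro y P
    induction P with
    | zero => simp
    | succ P ih =>
      rw [Finset.sum_range_succ, ih]
      push_cast
      rw [show y + α - ((P : ℝ) + 1) * α = y - P * α by ring,
        show y - P * α + α = y + α - P * α by ring]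
      ring
  have hk : ∀ y : ℝ, ∑ k ∈ Finset.Icc (-R : ℤ) R, χ (y + k * α) ≤ c * (2 * R + 1) := by
    intro y
    refine le_trans (le_of_eq ?_) (hG (y - R * α))
    symm
    refine Finset.sum_bij (fun (l : ℕ) _ => (l : ℤ) - R) ?_ ?_ ?_ ?_
    · intro l hl
      rw [Finset.mem_range] at hl
      rw [Finset.mem_Icc]
      omega
    · intro l _ l' _ h
      simpa using h
    · intro k hk
      rw [Finset.mem_Icc] at hk
      refine ⟨(k + R).toNat, ?_, ?_⟩
      · rw [Finset.mem_range]; omega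
      · rw [Int.toNat_of_nonneg (by omega)]; ring
    · intro l _
      push_cast
      congr 1
      ring
  have hk0 : ∀ y : ℝ, 0 ≤ ∑ k ∈ Finset.Icc (-R : ℤ) R, χ (y + k * α) := fun y =>
    Finset.sum_nonneg fun k _ => χ0 _
  have hdiff : ∀ y z : ℝ, |∑ k ∈ Finset.Icc (-R : ℤ) R, (χ (y + k * α) - χ (z + k * α))| ≤
      c * (2 * R + 1) := by
    intro y z
    rw [Finset.sum_sub_distrib, abs_le]
    constructor
    · linarith [hk0 y, hk z]
    · linarith [hk0 z, hk y]
  have hcard : ((Fintype.piFinset (fun _ : Fin m => Finset.Icc (-R : ℤ) R)).card : ℝ) =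
      (2 * R + 1) ^ m := by
    rw [Fintype.card_piFinset]
    simp only [Int.card_Icc, Finset.prod_const, Finset.card_univ, Fintype.card_fin]
    have : ((R : ℤ) + 1 - -R).toNat = 2 * R + 1 := by omega
    rw [this]
    push_cast
    rfl
  have main : ∀ τ ∈ ({1, -1} : Finset ℤ), |∑ n ∈ Fintype.piFinset
      (fun _ : Fin m => Finset.Icc (-R : ℤ) R), ∑ k ∈ Finset.Icc (-R : ℤ) R,
        ∑ l ∈ Finset.range P, (cob α G ((τ : ℝ) * (x + l * α) +
          (∑ j, (n j : ℝ) * b j + k * α)) : ℝ)| ≤ (2 * R + 1) ^ m * (c * (2 * R + 1)) := by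
    intro τ hτ
    rw [← hcard, ← nsmul_eq_mul]
    refine (Finset.abs_sum_le_sum_abs _ _).trans (Finset.sum_le_card_nsmul _ _ _ fun n _ => ?_)
    rw [Finset.mem_insert, Finset.mem_singleton] at hτ
    rcases hτ with rfl | rfl
    · have : ∀ k : ℤ, ∑ l ∈ Finset.range P, (cob α G (((1 : ℤ) : ℝ) * (x + l * α) +
          (∑ j, (n j : ℝ) * b j + k * α)) : ℝ) =
          χ ((x + ∑ j, (n j : ℝ) * b j) + k * α) -
            χ ((x + ∑ j, (n j : ℝ) * b j + P * α) + k * α) := by
        intro k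
        rw [show x + ∑ j, (n j : ℝ) * b j + P * α + k * α =
          (x + ∑ j, (n j : ℝ) * b j + k * α) + P * α by ring, ← tel1]
        refine Finset.sum_congr rfl fun l _ => ?_
        rw [hcob]
        congr 2 <;> push_cast <;> ring
      simp only [this]
      exact hdiff _ _
    · have : ∀ k : ℤ, ∑ l ∈ Finset.range P, (cob α G (((-1 : ℤ) : ℝ) * (x + l * α) +
          (∑ j, (n j : ℝ) * b j + k * α)) : ℝ) =
          χ ((-x + ∑ j, (n j : ℝ) * b j + α - P * α) + k * α) -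
            χ ((-x + ∑ j, (n j : ℝ) * b j + α) + k * α) := by
        intro k
        rw [show -x + ∑ j, (n j : ℝ) * b j + α - P * α + k * α =
          (-x + ∑ j, (n j : ℝ) * b j + k * α) + α - P * α by ring,
          show -x + ∑ j, (n j : ℝ) * b j + α + k * α =
          (-x + ∑ j, (n j : ℝ) * b j + k * α) + α by ring, ← tel2]
        refine Finset.sum_congr rfl fun l _ => ?_
        rw [hcob]
        congr 2 <;> push_cast <;> ring
      simp only [this]
      exact hdiff _ _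
  unfold cfgSum
  rw [Finset.sum_pair (by norm_num)]
  refine (abs_add_le _ _).trans ?_
  have h1 := main 1 (by simp)
  have h2 := main (-1) (by simp)
  have e : 2 * (2 * (R : ℝ) + 1) ^ (m + 1) * c =
    (2 * R + 1) ^ m * (c * (2 * R + 1)) + (2 * R + 1) ^ m * (c * (2 * R + 1)) := by ring
  rw [e]
  exact add_le_add h1 h2

end GB
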